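import Pool.Agent.W424.CoCh

/-!
# reg I(G)^q ≤ 2q + co-chord(G) − 1 for every graph, every field and every q ≥ 1

Definitions used from the files `Pool.Agent.H677R3.RegKoszul` and `RegDeg`:
* `edgeIdeal k G` is the ideal of `k[x_0,…,x_{n-1}]` spanned by the `x_i x_j`, `i` adjacent to `j`;
* `koszulD` is the Koszul differential of the variables; a Koszul chain assigns to every finite
  set `T` of variables the coefficient of `e_T`;
* `TorNe J i e`: the Koszul homology `H_i(x_1,…,x_n; J) = Tor_i(J, k)` is nonzero in internal
  degree `i + e`;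
* `IsReg J r`: `r` is the greatest `e` such that `TorNe J i e` for some `i`, i.e. `reg J = r`.
-/

universe u

namespace Pool.Agent.Results.MP_9b0fed_al.CoChordalBound

open Pool.Agent.H677R3.EdgeReg

/-- A graph is co-chordal when its complement has no induced cycle of length at least four. -/
def IsCoChordal {V : Type} (H : SimpleGraph V) : Prop :=
  ∀ m : ℕ, 4 ≤ m → IsEmpty (SimpleGraph.cycleGraph m ↪g Hᶜ)

/-- `G` has `t` co-chordal subgraphs (each with its own vertex set) whose edge sets cover the edge
set of `G`. -/
def HasCoChordalCover {V : Type} (G : SimpleGraph V) (t : ℕ) : Prop :=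
  ∃ H : Fin t → G.Subgraph, (∀ i, IsCoChordal (H i).coe) ∧ G.edgeSet = ⋃ i, (H i).edgeSet

/-- The co-chordal cover number: the least `t` such that `G` has a cover by `t` co-chordal
subgraphs. -/
noncomputable def coChord {V : Type} (G : SimpleGraph V) : ℕ := sInf {t | HasCoChordalCover G t}

/-- every finite graph has a co-chordal cover, so the least `t` exists -/
lemma exists_cover {n : ℕ} (G : SimpleGraph (Fin n)) : ∃ t, HasCoChordalCover G t := by
  classical
  let S : Fin n × Fin n → G.Subgraph := fun p =>
    if h : G.Adj p.1 p.2 then G.subgraphOfAdj h else ⊥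
  have hS : ∀ p, IsCoChordal (S p).coe := by
    intro p m hm
    refine ⟨fun f => ?_⟩
    have hverts : ∀ x ∈ (S p).verts, x = p.1 ∨ x = p.2 := by
      intro x hx
      by_cases h : G.Adj p.1 p.2
      · simp only [S, dif_pos h, SimpleGraph.subgraphOfAdj_verts] at hx
        simpa using hx
      · simp only [S, dif_neg h, SimpleGraph.Subgraph.verts_bot] at hx
        exact absurd hx (Set.notMem_empty x)
    let i0 : Fin m := ⟨0, by omega⟩
    let i1 : Fin m := ⟨1, by omega⟩
    let i2 : Fin m := ⟨2, by omega⟩
    have hne01 : (f i0).1 ≠ (f i1).1 := fun h => by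
      have := congrArg Fin.val (f.injective (Subtype.ext h))
      simp [i0, i1] at this
    have hne02 : (f i0).1 ≠ (f i2).1 := fun h => by
      have := congrArg Fin.val (f.injective (Subtype.ext h))
      simp [i0, i2] at this
    have hne12 : (f i1).1 ≠ (f i2).1 := fun h => by
      have := congrArg Fin.val (f.injective (Subtype.ext h))
      simp [i1, i2] at this
    rcases hverts _ (f i0).2 with h0 | h0 <;> rcases hverts _ (f i1).2 with h1 | h1 <;>
      rcases hverts _ (f i2).2 with h2 | h2 <;> simp_all
  refine ⟨n * n, fun i => S (finProdFinEquiv.symm i), fun i => hS _, ?_⟩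
  ext e
  rw [Set.mem_iUnion]
  constructor
  · induction e using Sym2.ind with
    | _ a b =>
      intro hab
      have hadj : G.Adj a b := hab
      refine ⟨finProdFinEquiv (a, b), ?_⟩
      beta_reduce
      rw [Equiv.symm_apply_apply]
      simp only [S]
      rw [dif_pos hadj]
      simp
  · rintro ⟨i, hi⟩
    exact SimpleGraph.Subgraph.edgeSet_subset _ hi

/-- For every field `k`, every finite simple graph `G` with at least one edge and every `q ≥ 1`:
`reg I(G)^q ≤ 2 q + co-chord(G) - 1`. -/
theorem result : ∀ (k : Type u) [Field k] (n : ℕ) (G : SimpleGraph (Fin n)), (∃ u v, G.Adj u v) →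
    ∀ q : ℕ, 1 ≤ q → ∃ s : ℕ, IsReg ((edgeIdeal k G) ^ q) s ∧ s ≤ 2 * q + coChord G - 1 := by
  intro k _ n G hG q hq
  obtain ⟨H, hH, hE⟩ : HasCoChordalCover G (coChord G) := Nat.sInf_mem (exists_cover G)
  obtain ⟨s, hs, hs2⟩ := Pool.Agent.W424.cochord_bound (k := k) G hG (coChord G)
    (fun i => (H i).spanningCoe) (by
      intro x y
      rw [← SimpleGraph.mem_edgeSet, hE, Set.mem_iUnion]
      exact Iff.rfl) (fun i => Pool.Agent.W424.chordal_spanning (H i) (hH i)) q hq
  exact ⟨s, hs, by omega⟩

end Pool.Agent.Results.MP_9b0fed_al.CoChordalBound
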